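import Mathlib
import Pool.Agent.Y670.KC.Stm2

/-!
Project KC, job UPP: a structure has at most countably many computable copies.
-/

set_option autoImplicit false

namespace Pool.Agent.Y235.KC

open Pool.Agent.Helper941.Dim

theorem countable_computable :
    Countable {f : ℕ × ℕ × ℕ → Bool // Computable f} := by
  have h : ∀ f : {f : ℕ × ℕ × ℕ → Bool // Computable f}, ∃ c : Nat.Partrec.Code,
      c.eval = fun n => Part.bind (Encodable.decode (α := ℕ × ℕ × ℕ) n : Part (ℕ × ℕ × ℕ))
        fun a => Part.map Encodable.encode ((f.1 : (ℕ × ℕ × ℕ) →. Bool) a) := fun f =>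
    Nat.Partrec.Code.exists_code.1 f.2
  choose g hg using h
  have hinj : Function.Injective g := by
    intro f f' hff
    refine Subtype.ext (funext fun q => ?_)
    have h1 := (hg f).symm.trans ((congrArg Nat.Partrec.Code.eval hff).trans (hg f'))
    have h2 := congrFun h1 (Encodable.encode q)
    simp only [Encodable.encodek, Part.coe_some, Part.bind_some, PFun.coe_val, Part.map_some,
      Part.some_inj, Encodable.encode_inj] at h2
    exact h2
  exact hinj.countable

theorem t_UPP : Pool.Agent.Y670.KC.Stm_UPP := by
  intro A
  have h : ∀ B : {B : Str // IsCopy A B}, ∃ f : {f : ℕ × ℕ × ℕ → Bool // Computable f},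
      ∀ q : ℕ × ℕ × ℕ, B.1 q.1 q.2.1 q.2.2 ↔ f.1 q = true := by
    intro B
    obtain ⟨f, hf, he⟩ := ComputablePred.computable_iff.1 B.2.1
    exact ⟨⟨f, hf⟩, fun q => by rw [congrFun he q]⟩
  choose F hF using h
  have hinj : Function.Injective F := by
    intro B B' hBB
    refine Subtype.ext (funext fun i => funext fun x => funext fun y => propext ?_)
    have h1 := hF B (i, x, y)
    have h2 := hF B' (i, x, y)
    rw [hBB] at h1
    exact h1.trans h2.symm
  have : Countable {f : ℕ × ℕ × ℕ → Bool // Computable f} := countable_computable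
  have : Countable {B : Str // IsCopy A B} := hinj.countable
  unfold compDim
  exact Cardinal.mk_le_aleph0

end Pool.Agent.Y235.KC
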